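import Mathlib

set_option autoImplicit false

open Filter

namespace Pool.Agent.H.MP_937f58_an

attribute [local instance] Ultrafilter.add Ultrafilter.addSemigroup

abbrev SS := ℕ →₀ ℕ

noncomputable def TT (x : SS) : SS := x.mapRange (fun i => i - 1) (by simp)

@[simp] lemma TT_apply (x : SS) (n : ℕ) : TT x n = x n - 1 := by simp [TT]

def Dj (x y : SS) : Prop := ∀ n, x n = 0 ∨ y n = 0

def Cof (U : Ultrafilter SS) : Prop := ∀ n, ∀ᶠ x in (U : Filter SS), x n = 0

def Lev (k : ℕ) (x : SS) : Prop := (∀ n, x n ≤ k) ∧ ∃ n, x n = k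

lemma Cof.dj {U : Ultrafilter SS} (h : Cof U) (y : SS) : ∀ᶠ x in (U : Filter SS), Dj y x := by
  have : ∀ᶠ x in (U : Filter SS), ∀ n ∈ y.support, x n = 0 :=
    (eventually_all_finset _).2 fun n _ => h n
  filter_upwards [this] with x hx n
  by_cases hn : y n = 0
  · exact Or.inl hn
  · exact Or.inr (hx n (Finsupp.mem_support_iff.2 hn))

lemma map_add' {H : Type} [Add H] (h : SS → H) (hh : ∀ x y, Dj x y → h (x + y) = h x + h y)
    (U V : Ultrafilter SS) (hV : Cof V) :
    Ultrafilter.map h (U + V) = Ultrafilter.map h U + Ultrafilter.map h V := by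
  apply Ultrafilter.coe_inj.mp
  apply Filter.ext'
  intro p
  rw [Ultrafilter.eventually_add]
  simp only [Ultrafilter.coe_map, eventually_map]
  rw [Ultrafilter.eventually_add]
  apply eventually_congr
  refine Eventually.of_forall fun x => ?_
  apply eventually_congr
  filter_upwards [hV.dj x] with y hy
  rw [hh x y hy]

lemma TT_add (x y : SS) (h : Dj x y) : TT (x + y) = TT x + TT y := by
  ext n
  rcases h n with h | h <;> simp [h]

lemma Cof.add {U V : Ultrafilter SS} (hU : Cof U) (hV : Cof V) : Cof (U + V) := by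
  intro n
  rw [Ultrafilter.eventually_add]
  filter_upwards [hU n] with x hx
  filter_upwards [hV n] with y hy
  simp [hx, hy]

lemma lev_add {j k : ℕ} {U V : Ultrafilter SS} (hV : Cof V)
    (h1 : ∀ᶠ x in (U : Filter SS), Lev j x) (h2 : ∀ᶠ x in (V : Filter SS), Lev k x) :
    ∀ᶠ x in ((U + V : Ultrafilter SS) : Filter SS), Lev (max j k) x := by
  rw [Ultrafilter.eventually_add]
  filter_upwards [h1] with x hx
  filter_upwards [h2, hV.dj x] with y hy hd
  refine ⟨fun n => ?_, ?_⟩
  · have a := hx.1 n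
    have b := hy.1 n
    rcases hd n with h | h <;> simp only [Finsupp.add_apply, h] <;> omega
  · rcases le_total j k with hjk | hjk
    · obtain ⟨n, hn⟩ := hy.2
      refine ⟨n, ?_⟩
      have a := hx.1 n
      rcases hd n with h | h <;> simp only [Finsupp.add_apply] <;> omega
    · obtain ⟨n, hn⟩ := hx.2
      refine ⟨n, ?_⟩
      have b := hy.1 n
      rcases hd n with h | h <;> simp only [Finsupp.add_apply] <;> omega

def LL (k : ℕ) : Set (Ultrafilter SS) := {U | Cof U ∧ ∀ᶠ x in (U : Filter SS), Lev k x}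

lemma LL_closed (k : ℕ) : IsClosed (LL k) := by
  have : LL k = (⋂ n : ℕ, {U : Ultrafilter SS | {x : SS | x n = 0} ∈ U}) ∩
      {U : Ultrafilter SS | {x : SS | Lev k x} ∈ U} := by
    ext U
    simp only [LL, Cof, Set.mem_ofPred_eq, Set.mem_inter_iff, Set.mem_iInter]
    rfl
  rw [this]
  exact (isClosed_iInter fun n => ultrafilter_isClosed_basic _).inter (ultrafilter_isClosed_basic _)

lemma map_closed (V : Ultrafilter SS) : IsClosed {U : Ultrafilter SS | Ultrafilter.map TT U = V} := by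
  have : {U : Ultrafilter SS | Ultrafilter.map TT U = V} =
      ⋂ s : {s : Set SS // s ∈ V}, {U : Ultrafilter SS | TT ⁻¹' s.1 ∈ U} := by
    ext U
    simp only [Set.mem_ofPred_eq, Set.mem_iInter]
    constructor
    · rintro rfl s
      exact s.2
    · intro h
      apply Ultrafilter.coe_inj.mp
      have h1 : ((Ultrafilter.map TT U : Ultrafilter SS) : Filter SS) ≤ V := fun s hs => h ⟨s, hs⟩
      exact (V.unique h1)
  rw [this]
  exact isClosed_iInter fun s => ultrafilter_isClosed_basic _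

def Good (k : ℕ) (V : Ultrafilter SS) : Prop :=
  V ∈ LL k ∧ V + V = V ∧ V + Ultrafilter.map TT V = V ∧ Ultrafilter.map TT V + V = V

lemma base : ∃ V, Good 1 V := by
  have hne : (LL 1).Nonempty := by
    refine ⟨Ultrafilter.map (fun n : ℕ => (Finsupp.single n 1 : SS)) (hyperfilter ℕ), ?_, ?_⟩
    · intro n
      simp only [Ultrafilter.coe_map, eventually_map]
      apply hyperfilter_le_cofinite
      filter_upwards [eventually_cofinite_ne n] with m hm
      exact Finsupp.single_eq_of_ne (Ne.symm hm)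
    · simp only [Ultrafilter.coe_map, eventually_map]
      refine Eventually.of_forall fun m => ⟨fun n => ?_, m, by simp⟩
      rw [Finsupp.single_apply]
      split_ifs <;> omega
  obtain ⟨V, hV, hVV⟩ := exists_idempotent_in_compact_add_subsemigroup
    (M := Ultrafilter SS) Ultrafilter.continuous_add_left (LL 1) hne (LL_closed 1).isCompact
    (fun U hU W hW => ⟨hU.1.add hW.1, by simpa using lev_add hW.1 hU.2 hW.2⟩)
  have h0 : ∀ᶠ x in (V : Filter SS), TT x = 0 := by
    filter_upwards [hV.2] with x hx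
    ext n
    have := hx.1 n
    simp only [TT_apply, Finsupp.coe_zero, Pi.zero_apply]
    omega
  refine ⟨V, hV, hVV, ?_, ?_⟩
  · apply Ultrafilter.coe_inj.mp
    apply Filter.ext'
    intro p
    rw [Ultrafilter.eventually_add]
    simp only [Ultrafilter.coe_map, eventually_map]
    apply eventually_congr
    refine Eventually.of_forall fun x => ?_
    have : (∀ᶠ y in (V : Filter SS), p (x + TT y)) ↔ ∀ᶠ y in (V : Filter SS), p x := by
      apply eventually_congr
      filter_upwards [h0] with y hy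
      rw [hy, add_zero]
    rw [this]
    simp
  · apply Ultrafilter.coe_inj.mp
    apply Filter.ext'
    intro p
    rw [Ultrafilter.eventually_add]
    simp only [Ultrafilter.coe_map, eventually_map]
    have : (∀ᶠ x in (V : Filter SS), ∀ᶠ y in (V : Filter SS), p (TT x + y)) ↔
        ∀ᶠ x in (V : Filter SS), ∀ᶠ y in (V : Filter SS), p y := by
      apply eventually_congr
      filter_upwards [h0] with x hx
      simp only [hx, zero_add]
    rw [this]
    simp

noncomputable def RR (x : SS) : SS := x.mapRange (fun i => if i = 0 then 0 else i + 1) (by simp)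

lemma RR_apply (x : SS) (n : ℕ) : RR x n = if x n = 0 then 0 else x n + 1 := by simp [RR]

lemma step (k : ℕ) (V : Ultrafilter SS) (hV : Good (k + 1) V) :
    ∃ W, Good (k + 2) W ∧ Ultrafilter.map TT W = V := by
  obtain ⟨hL, hVV, hVT, hTV⟩ := hV
  set K : Set (Ultrafilter SS) :=
    (LL (k + 2) ∩ {U | Ultrafilter.map TT U = V}) ∩ {U | U + V = U} with hK
  have hKc : IsClosed K :=
    ((LL_closed _).inter (map_closed V)).inter
      (isClosed_eq (Ultrafilter.continuous_add_left V) continuous_id)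
  have hU0 : Ultrafilter.map RR V ∈ LL (k + 2) := by
    refine ⟨fun n => ?_, ?_⟩
    · simp only [Ultrafilter.coe_map, eventually_map]
      filter_upwards [hL.1 n] with x hx
      simp [RR_apply, hx]
    · simp only [Ultrafilter.coe_map, eventually_map]
      filter_upwards [hL.2] with x hx
      refine ⟨fun n => ?_, ?_⟩
      · have := hx.1 n
        rw [RR_apply]
        split_ifs <;> omega
      · obtain ⟨n, hn⟩ := hx.2
        refine ⟨n, ?_⟩
        rw [RR_apply]
        split_ifs <;> omega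
  have hU1 : Ultrafilter.map TT (Ultrafilter.map RR V) = V := by
    rw [Ultrafilter.map_map]
    have : TT ∘ RR = id := by
      funext x
      ext n
      simp only [Function.comp, TT_apply, RR_apply, id]
      split_ifs <;> omega
    rw [this, Ultrafilter.map_id]
  have hne : K.Nonempty := by
    refine ⟨Ultrafilter.map RR V + V, ⟨⟨hU0.1.add hL.1, ?_⟩, ?_⟩, ?_⟩
    · simpa using lev_add hL.1 hU0.2 hL.2
    · show Ultrafilter.map TT _ = V
      rw [map_add' TT TT_add _ _ hL.1, hU1, hVT]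
    · show _ + V = _
      rw [add_assoc, hVV]
  obtain ⟨W, ⟨⟨hW1, hW2⟩, hW3⟩, hWW⟩ := exists_idempotent_in_compact_add_subsemigroup
    (M := Ultrafilter SS) Ultrafilter.continuous_add_left K hne hKc.isCompact
    (fun U hU W hW => by
      refine ⟨⟨⟨hU.1.1.1.add hW.1.1.1, by simpa using lev_add hW.1.1.1 hU.1.1.2 hW.1.1.2⟩, ?_⟩, ?_⟩
      · show Ultrafilter.map TT _ = V
        rw [map_add' TT TT_add _ _ hW.1.1.1, hU.1.2, hW.1.2, hVV]
      · show _ + V = _
        rw [add_assoc, hW.2])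
  have hW2' : Ultrafilter.map TT W = V := hW2
  have hW3' : W + V = W := hW3
  have hT : Ultrafilter.map TT (V + W) = V := by
    rw [map_add' TT TT_add _ _ hW1.1, hW2', hTV]
  refine ⟨V + W, ⟨⟨hL.1.add hW1.1, ?_⟩, ?_, ?_, ?_⟩, hT⟩
  · simpa using lev_add hW1.1 hL.2 hW1.2
  · rw [add_assoc, ← add_assoc W, hW3', hWW]
  · rw [hT, add_assoc, hW3']
  · rw [hT, ← add_assoc, hVV]

lemma exU : ∃ U : ℕ → Ultrafilter SS, ∀ k, Good (k + 1) (U k) ∧
    Ultrafilter.map TT (U (k + 1)) = U k := by
  obtain ⟨V, hV⟩ := base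
  choose f hf using step
  let g : (k : ℕ) → {V : Ultrafilter SS // Good (k + 1) V} := fun k =>
    Nat.rec ⟨V, hV⟩ (fun k W => ⟨f k W.1 W.2, (hf k W.1 W.2).1⟩) k
  exact ⟨fun k => (g k).1, fun k => ⟨(g k).2, (hf k (g k).1 (g k).2).2⟩⟩

lemma indep {G : Type} [AddCommGroup G] (p q : Ultrafilter G) (r : Ultrafilter (G × G))
    (hpp : p + p = p) (hpq : p + q = q) (hqp : q + p = q)
    (h1 : Ultrafilter.map Prod.fst r = q) (h2 : Ultrafilter.map Prod.snd r = p)
    (N : Set G) (hN : ∀ᶠ c in (r : Filter (G × G)), c.2 + c.2 - c.1 ∈ N)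
    (A B : Set G) (hA : A ∈ p) (hB : B ∈ q) :
    ∃ s : ℕ → G, ∀ P M : Finset ℕ, Disjoint P M →
      ∃ x : G, (∀ n ∈ P, s n + x ∈ A) ∧ (∀ n ∈ M, ∃ v ∈ N, ∃ u ∈ B, s n + x = v + u) := by
  classical
  let P' : G → Prop := fun u => (∀ᶠ x in (p : Filter G), u + x ∈ A) ∧
    ∀ᶠ x in (q : Filter G), u + x ∈ B
  let Q' : G → Prop := fun u => ∀ᶠ x in (p : Filter G), u + x ∈ B
  have a1 : ∀ u, P' u → ∀ᶠ x in (p : Filter G), P' (u + x) := by
    rintro u ⟨ha, hb⟩
    rw [← hpp, Ultrafilter.eventually_add] at ha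
    rw [← hpq, Ultrafilter.eventually_add] at hb
    filter_upwards [ha, hb] with x hx hx'
    exact ⟨by simpa only [add_assoc] using hx, by simpa only [add_assoc] using hx'⟩
  have a2 : ∀ u, P' u → ∀ᶠ x in (q : Filter G), Q' (u + x) := by
    rintro u ⟨-, hb⟩
    rw [← hqp, Ultrafilter.eventually_add] at hb
    filter_upwards [hb] with x hx
    simpa only [Q', add_assoc] using hx
  have a3 : ∀ u, Q' u → ∀ᶠ x in (p : Filter G), Q' (u + x) := by
    intro u hb
    have hb' : ∀ᶠ x in (p : Filter G), u + x ∈ B := hb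
    rw [← hpp, Ultrafilter.eventually_add] at hb'
    filter_upwards [hb'] with x hx
    simpa only [Q', add_assoc] using hx
  have b1 : ∀ R : G → Prop, (∀ᶠ x in (q : Filter G), R x) → ∀ᶠ c in (r : Filter (G × G)), R c.1 := by
    intro R hR
    rw [← h1] at hR
    exact hR
  have b2 : ∀ R : G → Prop, (∀ᶠ x in (p : Filter G), R x) → ∀ᶠ c in (r : Filter (G × G)), R c.2 := by
    intro R hR
    rw [← h2] at hR
    exact hR
  have st : ∀ W W' : Finset G, (∀ w ∈ W, P' w) → (∀ w ∈ W', Q' w) → ∃ c d z : G,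
      d + d - c ∈ N ∧ (∀ w ∈ W, P' (w + z) ∧ P' (w + d + z) ∧ P' (w + d) ∧ Q' (w + c)) ∧
      (∀ w ∈ W', Q' (w + z) ∧ Q' (w + d + z)) := by
    intro W W' hW hW'
    have e1 : ∀ᶠ c in (r : Filter (G × G)), ∀ w ∈ W, P' (w + c.2) ∧ Q' (w + c.1) :=
      (eventually_all_finset _).2 fun w hw =>
        (b2 _ (a1 w (hW w hw))).and (b1 _ (a2 w (hW w hw)))
    have e2 : ∀ᶠ c in (r : Filter (G × G)), ∀ w ∈ W', Q' (w + c.2) :=
      (eventually_all_finset _).2 fun w hw => b2 _ (a3 w (hW' w hw))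
    obtain ⟨⟨c, d⟩, hc1, hc2, hc3⟩ := (hN.and (e1.and e2)).exists
    have e3 : ∀ᶠ z in (p : Filter G), ∀ w ∈ W, P' (w + z) ∧ P' (w + d + z) :=
      (eventually_all_finset _).2 fun w hw => (a1 w (hW w hw)).and (a1 _ (hc2 w hw).1)
    have e4 : ∀ᶠ z in (p : Filter G), ∀ w ∈ W', Q' (w + z) ∧ Q' (w + d + z) :=
      (eventually_all_finset _).2 fun w hw => (a3 w (hW' w hw)).and (a3 _ (hc3 w hw))
    obtain ⟨z, hz1, hz2⟩ := (e3.and e4).exists
    exact ⟨c, d, z, hc1, fun w hw => ⟨(hz1 w hw).1, (hz1 w hw).2, (hc2 w hw).1, (hc2 w hw).2⟩, hz2⟩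
  choose! fc fd fz hf using st
  let nx : Finset G × Finset G → Finset G × Finset G := fun X =>
    (X.1 ∪ X.1.image (· + fz X.1 X.2) ∪ X.1.image (· + fd X.1 X.2 + fz X.1 X.2) ∪
        X.1.image (· + fd X.1 X.2),
      X.2 ∪ X.2.image (· + fz X.1 X.2) ∪ X.2.image (· + fd X.1 X.2 + fz X.1 X.2) ∪
        X.1.image (· + fc X.1 X.2))
  let X : ℕ → Finset G × Finset G := fun n => nx^[n] ({0}, ∅)
  have Xs : ∀ n, X (n + 1) = nx (X n) := fun n => Function.iterate_succ_apply' _ _ _
  have inv : ∀ n, (∀ w ∈ (X n).1, P' w) ∧ ∀ w ∈ (X n).2, Q' w := by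
    intro n
    induction n with
    | zero =>
      refine ⟨fun w hw => ?_, fun w hw => ?_⟩
      · have : w = 0 := by simpa [X] using hw
        subst this
        exact ⟨by simpa using hA, by simpa using hB⟩
      · simp [X] at hw
    | succ n ih =>
      obtain ⟨-, g1, g2⟩ := hf _ _ ih.1 ih.2
      rw [Xs]
      refine ⟨fun w hw => ?_, fun w hw => ?_⟩
      · simp only [nx, Finset.mem_union, Finset.mem_image] at hw
        rcases hw with ((hw | ⟨v, hv, rfl⟩) | ⟨v, hv, rfl⟩) | ⟨v, hv, rfl⟩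
        · exact ih.1 w hw
        · exact (g1 v hv).1
        · exact (g1 v hv).2.1
        · exact (g1 v hv).2.2.1
      · simp only [nx, Finset.mem_union, Finset.mem_image] at hw
        rcases hw with ((hw | ⟨v, hv, rfl⟩) | ⟨v, hv, rfl⟩) | ⟨v, hv, rfl⟩
        · exact ih.2 w hw
        · exact (g2 v hv).1
        · exact (g2 v hv).2
        · exact (g1 v hv).2.2.2
  let c : ℕ → G := fun n => fc (X n).1 (X n).2
  let d : ℕ → G := fun n => fd (X n).1 (X n).2
  let z : ℕ → G := fun n => fz (X n).1 (X n).2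
  have hcd : ∀ n, d n + d n - c n ∈ N := fun n => (hf _ _ (inv n).1 (inv n).2).1
  have m1 : ∀ n, ∀ w ∈ (X n).1, w ∈ (X (n + 1)).1 ∧ w + z n ∈ (X (n + 1)).1 ∧
      w + d n + z n ∈ (X (n + 1)).1 ∧ w + d n ∈ (X (n + 1)).1 ∧ w + c n ∈ (X (n + 1)).2 := by
    intro n w hw
    rw [Xs]
    simp only [nx, Finset.mem_union, Finset.mem_image]
    exact ⟨Or.inl (Or.inl (Or.inl hw)), Or.inl (Or.inl (Or.inr ⟨w, hw, rfl⟩)),
      Or.inl (Or.inr ⟨w, hw, rfl⟩), Or.inr ⟨w, hw, rfl⟩, Or.inr ⟨w, hw, rfl⟩⟩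
  have m2 : ∀ n, ∀ w ∈ (X n).2, w ∈ (X (n + 1)).2 ∧ w + z n ∈ (X (n + 1)).2 ∧
      w + d n + z n ∈ (X (n + 1)).2 := by
    intro n w hw
    rw [Xs]
    simp only [nx, Finset.mem_union, Finset.mem_image]
    exact ⟨Or.inl (Or.inl (Or.inl hw)), Or.inl (Or.inl (Or.inr ⟨w, hw, rfl⟩)),
      Or.inl (Or.inr ⟨w, hw, rfl⟩)⟩
  refine ⟨fun n => d n - z n, fun P M hPM => ?_⟩
  have key : ∀ L : ℕ, ∃ x : G, x ∈ (X L).1 ∧ (∀ n ∈ P, n < L → d n - z n + x ∈ (X L).1) ∧
      (∀ n ∈ M, n < L → d n - z n + x - (d n + d n - c n) ∈ (X L).2) := by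
    intro L
    induction L with
    | zero => exact ⟨0, by simp [X], by simp, by simp⟩
    | succ L ih =>
      obtain ⟨x, hx0, hx1, hx2⟩ := ih
      by_cases hP : L ∈ P
      · refine ⟨x + z L, (m1 L x hx0).2.1, fun n hn hnL => ?_, fun n hn hnL => ?_⟩
        · rcases Nat.lt_succ_iff_lt_or_eq.1 hnL with h | rfl
          · have := (m1 L _ (hx1 n hn h)).2.1
            convert this using 1
            abel
          · have := (m1 n x hx0).2.2.2.1
            convert this using 1
            abel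
        · rcases Nat.lt_succ_iff_lt_or_eq.1 hnL with h | rfl
          · have := (m2 L _ (hx2 n hn h)).2.1
            convert this using 1
            abel
          · exact absurd hn (Finset.disjoint_left.1 hPM hP)
      · by_cases hM : L ∈ M
        · refine ⟨x + d L + z L, (m1 L x hx0).2.2.1, fun n hn hnL => ?_, fun n hn hnL => ?_⟩
          · rcases Nat.lt_succ_iff_lt_or_eq.1 hnL with h | rfl
            · have := (m1 L _ (hx1 n hn h)).2.2.1
              convert this using 1
              abel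
            · exact absurd hn hP
          · rcases Nat.lt_succ_iff_lt_or_eq.1 hnL with h | rfl
            · have := (m2 L _ (hx2 n hn h)).2.2
              convert this using 1
              abel
            · have := (m1 n x hx0).2.2.2.2
              convert this using 1
              abel
        · refine ⟨x, (m1 L x hx0).1, fun n hn hnL => ?_, fun n hn hnL => ?_⟩
          · rcases Nat.lt_succ_iff_lt_or_eq.1 hnL with h | rfl
            · exact (m1 L _ (hx1 n hn h)).1
            · exact absurd hn hP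
          · rcases Nat.lt_succ_iff_lt_or_eq.1 hnL with h | rfl
            · exact (m2 L _ (hx2 n hn h)).1
            · exact absurd hn hM
  obtain ⟨L, hL⟩ := (P ∪ M).exists_nat_subset_range
  obtain ⟨x, -, hx1, hx2⟩ := key L
  have e1 : ∀ᶠ t in (p : Filter G), ∀ w ∈ (X L).1, w + t ∈ A :=
    (eventually_all_finset _).2 fun w hw => ((inv L).1 w hw).1
  have e2 : ∀ᶠ t in (p : Filter G), ∀ w ∈ (X L).2, w + t ∈ B :=
    (eventually_all_finset _).2 fun w hw => (inv L).2 w hw
  obtain ⟨t, ht1, ht2⟩ := (e1.and e2).exists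
  refine ⟨x + t, fun n hn => ?_, fun n hn => ?_⟩
  · have := ht1 _ (hx1 n hn (Finset.mem_range.1 (hL (Finset.mem_union_left _ hn))))
    show d n - z n + (x + t) ∈ A
    rwa [← add_assoc]
  · refine ⟨_, hcd n, _, ht2 _ (hx2 n hn (Finset.mem_range.1 (hL (Finset.mem_union_right _ hn)))), ?_⟩
    show d n - z n + (x + t) = _
    abel

end Pool.Agent.H.MP_937f58_an
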