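import Pool.Agent.H.MP_937f58_an.A

set_option autoImplicit false

open Filter Topology BoundedContinuousFunction

namespace Pool.Agent.H.MP_937f58_an

attribute [local instance] Ultrafilter.add Ultrafilter.addSemigroup

noncomputable def ee (n : ℕ) : ℕ →ᵇ ℝ :=
  BoundedContinuousFunction.ofNormedAddCommGroupDiscrete (fun m => if m = n then 1 else 0) 1
    (fun m => by split_ifs <;> simp)

lemma ee_apply (n m : ℕ) : ee n m = if m = n then 1 else 0 := rfl

noncomputable def C0 : Submodule ℝ (ℕ →ᵇ ℝ) := (Submodule.span ℝ (Set.range ee)).topologicalClosure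

instance : CompleteSpace C0 := (Submodule.isClosed_topologicalClosure _).completeSpace_coe

instance : TopologicalSpace.SeparableSpace C0 := by
  apply TopologicalSpace.IsSeparable.separableSpace
  exact ((Set.countable_range ee).isSeparable.span).closure

instance : PolishSpace C0 := by
  have : SecondCountableTopology C0 := UniformSpace.secondCountable_of_separable _
  infer_instance

noncomputable def e0 (n : ℕ) : C0 :=
  ⟨ee n, Submodule.le_topologicalClosure _ (Submodule.subset_span ⟨n, rfl⟩)⟩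

noncomputable def ww (L i : ℕ) : ℝ := if i = 0 then 0 else 2 ^ i / 2 ^ L

noncomputable def VV (L : ℕ) (x : SS) : C0 := ∑ n ∈ x.support, ww L (x n) • e0 n

lemma VV_apply (L : ℕ) (x : SS) (m : ℕ) : (VV L x : ℕ →ᵇ ℝ) m = ww L (x m) := by
  simp only [VV, AddSubmonoidClass.coe_finsetSum, SetLike.val_smul, e0,
    BoundedContinuousFunction.coe_sum, Finset.sum_apply, BoundedContinuousFunction.coe_smul,
    ee_apply, smul_eq_mul, mul_ite, mul_one, mul_zero]
  rw [Finset.sum_ite_eq]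
  split_ifs with h
  · rfl
  · have : x m = 0 := by simpa using h
    simp [ww, this]

lemma VV_add (L : ℕ) (x y : SS) (h : Dj x y) : VV L (x + y) = VV L x + VV L y := by
  apply Subtype.ext
  ext m
  simp only [Submodule.coe_add, BoundedContinuousFunction.coe_add, Pi.add_apply, VV_apply,
    Finsupp.add_apply]
  rcases h m with h | h <;> simp [h, ww]

lemma norm_le' (u : C0) (C : ℝ) (hC : 0 ≤ C) (h : ∀ m, |(u : ℕ →ᵇ ℝ) m| ≤ C) : ‖u‖ ≤ C :=
  (BoundedContinuousFunction.norm_le hC).2 h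

lemma VV_err (L : ℕ) (x : SS) : ‖VV L (TT x) + VV L (TT x) - VV L x‖ ≤ 2 / 2 ^ L := by
  apply norm_le' _ _ (by positivity)
  intro m
  simp only [AddSubgroupClass.coe_sub, Submodule.coe_add, BoundedContinuousFunction.coe_sub,
    BoundedContinuousFunction.coe_add, Pi.sub_apply, Pi.add_apply, VV_apply, TT_apply]
  rcases hx : x m with _ | _ | i
  · simp [ww]
    positivity
  · simp [ww]
    rw [abs_of_nonneg (by positivity)]
  · have : ww L (i + 1 + 1 - 1) + ww L (i + 1 + 1 - 1) - ww L (i + 1 + 1) = 0 := by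
      simp only [ww, Nat.add_sub_cancel, Nat.add_eq_zero_iff, one_ne_zero, and_false, if_false]
      ring
    rw [this, abs_zero]
    positivity

lemma VV_le (L k : ℕ) (x : SS) (h : Lev k x) : ‖VV L x‖ ≤ 2 ^ k / 2 ^ L := by
  apply norm_le' _ _ (by positivity)
  intro m
  rw [VV_apply, ww]
  split_ifs
  · simp
    positivity
  · rw [abs_of_nonneg (by positivity)]
    gcongr
    · norm_num
    · exact h.1 m

lemma VV_ge (L : ℕ) (x : SS) (h : Lev (L + 1) x) : 1 ≤ ‖VV (L + 1) x‖ := by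
  obtain ⟨m, hm⟩ := h.2
  have h1 : ‖(VV (L + 1) x : ℕ →ᵇ ℝ) m‖ ≤ ‖(VV (L + 1) x : ℕ →ᵇ ℝ)‖ := norm_coe_le_norm _ m
  rw [VV_apply, hm, ww] at h1
  simp only [Nat.add_eq_zero_iff, one_ne_zero, and_false, if_false] at h1
  rw [div_self (by positivity), norm_one] at h1
  exact h1

def Tame (f : C0 → ℝ) : Prop := ¬ ∃ s : ℕ → C0, ∃ a b : ℝ, a < b ∧
  ∀ P M : Finset ℕ, Disjoint P M →
    ∃ x : C0, (∀ n ∈ P, f (s n + x) < a) ∧ (∀ n ∈ M, b < f (s n + x))

lemma Tame.neg {f : C0 → ℝ} (h : Tame f) : Tame (fun x => - f x) := by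
  rintro ⟨s, a, b, hab, H⟩
  refine h ⟨s, -b, -a, by linarith, fun P M hPM => ?_⟩
  obtain ⟨x, h1, h2⟩ := H M P hPM.symm
  exact ⟨x, fun n hn => by linarith [h2 n hn], fun n hn => by linarith [h1 n hn]⟩

lemma one_step (f : C0 → ℝ) (hf : Tame f) (L k : ℕ) (p q : Ultrafilter SS) (hp : Good k p)
    (hq : Good (k + 1) q) (hT : Ultrafilter.map TT q = p) (η : ℝ) (hη : 0 < η)
    (hu : ∀ v : C0, ‖v‖ ≤ 2 / 2 ^ L → ∀ u, |f (v + u) - f u| < η) (a : ℝ)
    (ha : ∀ᶠ x in (p : Filter SS), f (VV L x) < a) :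
    ∀ᶠ x in (q : Filter SS), f (VV L x) < a + 2 * η := by
  by_contra hc
  rw [← Ultrafilter.eventually_not] at hc
  obtain ⟨s, hs⟩ := indep (Ultrafilter.map (VV L) p) (Ultrafilter.map (VV L) q)
    (Ultrafilter.map (fun x => (VV L x, VV L (TT x))) q)
    (by rw [← map_add' _ (VV_add L) _ _ hp.1.1, hp.2.1])
    (by rw [← map_add' _ (VV_add L) _ _ hq.1.1, ← hT, hq.2.2.2])
    (by rw [← map_add' _ (VV_add L) _ _ hp.1.1, ← hT, hq.2.2.1])
    (by rw [Ultrafilter.map_map]; rfl)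
    (by rw [← hT, Ultrafilter.map_map, Ultrafilter.map_map]; rfl)
    {v | ‖v‖ ≤ 2 / 2 ^ L}
    (by
      simp only [Ultrafilter.coe_map, eventually_map]
      exact Eventually.of_forall fun x => VV_err L x)
    {u | f u < a} {u | ¬ f u < a + 2 * η} ha hc
  refine hf ⟨s, a, a + η / 2, by linarith, fun P M hPM => ?_⟩
  obtain ⟨x, h1, h2⟩ := hs P M hPM
  refine ⟨x, h1, fun n hn => ?_⟩
  obtain ⟨v, hv, u, hu', e⟩ := h2 n hn
  rw [e]
  have h3 := abs_lt.1 (hu v hv u)
  have h4 : ¬ f u < a + 2 * η := hu'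
  linarith [h3.1, not_lt.1 h4]

def UC (f : C0 → ℝ) : Prop := ∀ ε : ℝ, 0 < ε → ∃ V ∈ nhds (0 : C0), ∀ v ∈ V, ∀ x : C0,
  |f (v + x) - f x| < ε

lemma UC.neg {f : C0 → ℝ} (h : UC f) : UC (fun x => - f x) := by
  intro ε hε
  obtain ⟨V, hV, H⟩ := h ε hε
  refine ⟨V, hV, fun v hv x => ?_⟩
  have := H v hv x
  rw [abs_lt] at this ⊢
  constructor <;> linarith [this.1, this.2]

lemma UC.ev {f : C0 → ℝ} (h : UC f) (ε : ℝ) (hε : 0 < ε) :
    ∀ᶠ L : ℕ in atTop, ∀ v : C0, ‖v‖ ≤ 2 / 2 ^ L → ∀ u, |f (v + u) - f u| < ε := by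
  obtain ⟨V, hV, H⟩ := h ε hε
  obtain ⟨δ, hδ, hb⟩ := Metric.mem_nhds_iff.1 hV
  have : Tendsto (fun L : ℕ => (2 : ℝ) / 2 ^ L) atTop (𝓝 0) :=
    Tendsto.div_atTop tendsto_const_nhds (tendsto_pow_atTop_atTop_of_one_lt (by norm_num))
  filter_upwards [this.eventually (gt_mem_nhds hδ)] with L hL v hv u
  apply H v (hb _)
  have h1 : ‖v‖ < δ := lt_of_le_of_lt hv hL
  have h2 : dist v 0 = ‖v‖ := dist_zero_right v
  exact Metric.mem_ball.2 (h2 ▸ h1)

lemma chain (U : ℕ → Ultrafilter SS) (hU : ∀ k, Good (k + 1) (U k) ∧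
    Ultrafilter.map TT (U (k + 1)) = U k) (f : C0 → ℝ) (hf : Tame f) (hu : UC f) (ε : ℝ)
    (hε : 0 < ε) : ∀ᶠ L : ℕ in atTop, ∀ᶠ x in (U L : Filter SS), f (VV (L + 1) x) < f 0 + ε := by
  obtain ⟨j, hj⟩ := (hu.ev (ε / 2) (by linarith)).exists
  set η : ℝ := ε / (4 * (j + 1)) with hη
  have hη0 : 0 < η := by positivity
  obtain ⟨L0, hL0⟩ := eventually_atTop.1 (hu.ev η hη0)
  filter_upwards [eventually_ge_atTop (L0 + j)] with L hL
  obtain ⟨k, rfl⟩ : ∃ k, L = k + j := ⟨L - j, by omega⟩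
  have key : ∀ i : ℕ, ∀ᶠ x in (U (k + i) : Filter SS),
      f (VV (k + j + 1) x) < f 0 + ε / 2 + i * (2 * η) := by
    intro i
    induction i with
    | zero =>
      filter_upwards [(hU k).1.1.2] with x hx
      have h1 := VV_le (k + j + 1) _ x hx
      have h2 : (2 : ℝ) ^ (k + 1) / 2 ^ (k + j + 1) ≤ 2 / 2 ^ j := by
        rw [div_le_div_iff₀ (by positivity) (by positivity)]
        have : (2 : ℝ) ^ (k + 1) * 2 ^ j = 2 ^ (k + j + 1) := by ring
        rw [this]
        have : (0 : ℝ) < 2 ^ (k + j + 1) := by positivity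
        linarith
      have h3 := abs_lt.1 (hj _ (h1.trans h2) 0)
      rw [add_zero] at h3
      simp only [Nat.cast_zero, zero_mul, add_zero]
      linarith [h3.2]
    | succ i ih =>
      have := one_step f hf (k + j + 1) (k + i + 1) (U (k + i)) (U (k + i + 1)) (hU _).1 (hU _).1
        (hU _).2 η hη0 (hL0 _ (by omega)) _ ih
      filter_upwards [this] with x hx
      push_cast
      linarith
  filter_upwards [key j] with x hx
  have : (j : ℝ) * (2 * η) ≤ ε / 2 := by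
    rw [hη]
    have h1 : (0 : ℝ) < (j : ℝ) + 1 := by positivity
    have h2 : (j : ℝ) * (2 * (ε / (4 * (j + 1)))) = ε / 2 * (j / (j + 1)) := by
      field_simp
      ring
    rw [h2]
    have h3 : (j : ℝ) / (j + 1) ≤ 1 := by
      rw [div_le_one h1]
      linarith
    nlinarith
  linarith

lemma main : ∃ F : Filter C0, F.NeBot ∧ (∀ᶠ x in F, 1 ≤ ‖x‖) ∧
    ∀ f : C0 → ℝ, Tame f → UC f → Tendsto f F (𝓝 (f 0)) := by
  obtain ⟨U, hU⟩ := exU
  refine ⟨(atTop : Filter ℕ).bind fun L => map (VV (L + 1)) (U L), ?_, ?_, ?_⟩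
  · refine ⟨fun h => ?_⟩
    have : ∀ᶠ x in ((atTop : Filter ℕ).bind fun L => map (VV (L + 1)) (U L)), False := by
      rw [h]
      exact eventually_bot
    rw [eventually_bind] at this
    obtain ⟨L, hL⟩ := this.exists
    rw [eventually_map] at hL
    exact hL.exists.elim fun _ h => h
  · rw [eventually_bind]
    refine Eventually.of_forall fun L => ?_
    rw [eventually_map]
    filter_upwards [(hU L).1.1.2] with x hx
    exact VV_ge L x hx
  · intro f hf hu
    rw [Metric.tendsto_nhds]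
    intro ε hε
    rw [eventually_bind]
    filter_upwards [chain U hU f hf hu ε hε, chain U hU _ hf.neg hu.neg ε hε] with L h1 h2
    rw [eventually_map]
    filter_upwards [h1, h2] with x hx1 hx2
    rw [Real.dist_eq, abs_lt]
    constructor <;> linarith

end Pool.Agent.H.MP_937f58_an
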